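import Pool.Agent.Helper71.PN.MLOC
import Pool.Agent.Helper95.LN.Stmts

/-! Row MLL: the localized Morawetz inequality with the exact virial. -/

set_option autoImplicit false

namespace Pool.Agent.Helper14.LN

open MeasureTheory Filter Pool.Agent.Helper95.PW Pool.Agent.Helper95.LN

/-- the Morawetz side -/
theorem mll_bi {n M : ℕ} {X : Fin M → R3} {A s : ℝ} {g : R3 → ℝ} (hs : 0 < s)
    (hg : ContDiff ℝ (⊤ : ℕ∞) g)
    (hb : ∀ y, ∑ j, mor s (y - X j) ≤ -(1 / 2) * lap (lap g) y + A)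
    {u : Wf n} (hu : Sm u) :
    ∑ j, one (fun y => mor s (y - X j)) u ≤ -(1 / 2) * one (lap (lap g)) u +
      A * (n * Pool.Agent.Helper95.PW.sq u) := by
  have hL : Continuous (lap (lap g)) := (MLOC_lap (MLOC_lap hg)).continuous
  unfold one Pool.Agent.Helper95.PW.sq
  rw [Finset.sum_comm, Finset.mul_sum, Finset.mul_sum, Finset.mul_sum, ← Finset.sum_add_distrib]
  refine Finset.sum_le_sum fun t _ => ?_
  have hv := (hu t).1.continuous
  have hcs := (hu t).2
  have i1 : ∀ j, Integrable (fun x : Cf n => (∑ k, mor s (x k - X j)) * u t x ^ 2) :=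
    fun j => MLOC_int (MLOC_mor_cont hs (X j)) hv hcs
  have i2 : Integrable (fun x : Cf n => u t x ^ 2) :=
    (hv.memLp_of_hasCompactSupport hcs (p := 2)).integrable_sq
  have i3 := MLOC_int (n := n) hL hv hcs
  rw [← integral_finsetSum _ fun j _ => i1 j, ← integral_const_mul, ← integral_const_mul,
    ← integral_const_mul, ← integral_add (i3.const_mul _) ((i2.const_mul _).const_mul _)]
  refine integral_mono (integrable_finsetSum _ fun j _ => i1 j)
    ((i3.const_mul _).add ((i2.const_mul _).const_mul _)) fun x => ?_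
  have e1 : ∑ j, (∑ k, mor s (x k - X j)) * u t x ^ 2 =
      (∑ k, ∑ j, mor s (x k - X j)) * u t x ^ 2 := by
    rw [← Finset.sum_mul, Finset.sum_comm]
  have e2 : (∑ k, ∑ j, mor s (x k - X j)) ≤ ∑ k, (-(1 / 2) * lap (lap g) (x k) + A) :=
    Finset.sum_le_sum fun k _ => hb (x k)
  have e3 : ∑ k, (-(1 / 2) * lap (lap g) (x k) + A) =
      -(1 / 2) * ∑ k, lap (lap g) (x k) + n * A := by
    rw [Finset.sum_add_distrib, ← Finset.mul_sum, Finset.sum_const, Finset.card_univ,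
      Fintype.card_fin, nsmul_eq_mul]
  rw [e3] at e2
  simp only
  rw [e1]
  have e4 := mul_le_mul_of_nonneg_right e2 (sq_nonneg (u t x))
  refine e4.trans (le_of_eq ?_)
  ring

/-- the residual -/
theorem mll_res (pan : ST_PAN) (int : ST_INTM) {n M : ℕ} (X : Fin M → R3) (Z : Fin M → ℝ)
    (E : ℝ) {g : R3 → ℝ} (hg : ContDiff ℝ (⊤ : ℕ∞) g) {u : Wf n} (hu : Sm u)
    (hw : Sm (fun s => Pg g (u s))) :
    ∑ s, ∫ x, Pg g (u s) x * (hmM X Z (u s) x - E * u s x) =
      (∑ s, ∫ x, Pg g (u s) x * (-(∑ k, ∑ i, dv k i (dv k i (u s)) x))) +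
      ∑ s, ∫ x, (rep x - ∑ k, pot X Z (x k)) * (Pg g (u s) x * u s x) := by
  rw [← Finset.sum_add_distrib]
  refine Finset.sum_congr rfl fun s _ => ?_
  obtain ⟨hw1, hw2⟩ := hw s
  obtain ⟨hu1, hu2⟩ := hu s
  have hI := int n M X Z (Pg g (u s)) (u s) hw1 hw2 hu1 hu2
  have hdd : ContDiff ℝ (⊤ : ℕ∞) (fun x : Cf n => -(∑ k, ∑ i, dv k i (dv k i (u s)) x)) := by
    refine ContDiff.neg (ContDiff.sum fun k _ => ContDiff.sum fun i _ => ?_)
    exact (INL_dv k i (INL_dv k i hu1 hu2).1 (INL_dv k i hu1 hu2).2).1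
  have i1 : Integrable (fun x : Cf n =>
      Pg g (u s) x * (-(∑ k, ∑ i, dv k i (dv k i (u s)) x))) :=
    (hw1.continuous.mul hdd.continuous).integrable_of_hasCompactSupport hw2.mul_right
  have i4 : Integrable (fun x : Cf n => Pg g (u s) x * u s x) :=
    (hw1.continuous.mul hu1.continuous).integrable_of_hasCompactSupport hw2.mul_right
  have z0 : ∫ x, Pg g (u s) x * u s x = 0 := by
    have h := pan n g (u s) (u s) hg hu1 hu2 hu1
    have h2 : ∫ x, u s x * Pg g (u s) x = ∫ x, Pg g (u s) x * u s x :=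
      integral_congr_ae (ae_of_all _ fun x => mul_comm _ _)
    rw [h2] at h
    linarith
  have i2 : Integrable (fun x : Cf n =>
      (rep x - ∑ k, pot X Z (x k)) * (Pg g (u s) x * u s x)) := by
    refine (hI.2.1.sub hI.1).congr (ae_of_all _ fun x => ?_)
    simp only [Pi.sub_apply]
    ring
  have e1 : (fun x => Pg g (u s) x * (hmM X Z (u s) x - E * u s x)) = fun x =>
      Pg g (u s) x * (-(∑ k, ∑ i, dv k i (dv k i (u s)) x)) +
      (rep x - ∑ k, pot X Z (x k)) * (Pg g (u s) x * u s x) -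
      E * (Pg g (u s) x * u s x) := by
    funext x
    unfold hmM
    ring
  have j2 : Integrable (fun x : Cf n =>
      Pg g (u s) x * (-(∑ k, ∑ i, dv k i (dv k i (u s)) x)) +
      (rep x - ∑ k, pot X Z (x k)) * (Pg g (u s) x * u s x)) := i1.add i2
  have j3 : Integrable (fun x : Cf n => E * (Pg g (u s) x * u s x)) := i4.const_mul E
  rw [e1, integral_sub j2 j3, integral_add i1 i2, integral_const_mul, z0]
  ring

/-- the expectation of the Coulomb energy -/
theorem mll_vc (int : ST_INTM) {n M : ℕ} (X : Fin M → R3) (Z : Fin M → ℝ) {u : Wf n}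
    (hu : Sm u) :
    (∀ s, Integrable (fun x : Cf n => Vc X Z x * u s x ^ 2)) ∧
    ∑ s, ∫ x, Vc X Z x * u s x ^ 2 =
      pair u - one (pot X Z) u + nucR X Z * Pool.Agent.Helper95.PW.sq u := by
  have hs : ∀ s, Integrable (fun x : Cf n => rep x * u s x ^ 2) ∧
      Integrable (fun x : Cf n => (∑ k, pot X Z (x k)) * u s x ^ 2) ∧
      Integrable (fun x : Cf n => u s x ^ 2) := by
    intro s
    obtain ⟨i1, i2, -, -⟩ := int n M X Z (u s) (u s) (hu s).1 (hu s).2 (hu s).1 (hu s).2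
    refine ⟨?_, ?_,
      ((hu s).1.continuous.memLp_of_hasCompactSupport (hu s).2 (p := 2)).integrable_sq⟩
    · refine i2.congr (ae_of_all _ fun x => ?_)
      simp only
      ring
    · refine i1.congr (ae_of_all _ fun x => ?_)
      simp only
      ring
  have e : ∀ s, (fun x : Cf n => Vc X Z x * u s x ^ 2) = fun x =>
      rep x * u s x ^ 2 - (∑ k, pot X Z (x k)) * u s x ^ 2 + nucR X Z * u s x ^ 2 := by
    intro s
    funext x
    unfold Vc
    ring
  have i4 : ∀ s, Integrable (fun x : Cf n =>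
      rep x * u s x ^ 2 - (∑ k, pot X Z (x k)) * u s x ^ 2) := fun s => (hs s).1.sub (hs s).2.1
  have i5 : ∀ s, Integrable (fun x : Cf n => nucR X Z * u s x ^ 2) :=
    fun s => (hs s).2.2.const_mul _
  refine ⟨fun s => ?_, ?_⟩
  · rw [e s]
    exact (i4 s).add (i5 s)
  · unfold pair one Pool.Agent.Helper95.PW.sq
    rw [Finset.mul_sum, ← Finset.sum_sub_distrib, ← Finset.sum_add_distrib]
    refine Finset.sum_congr rfl fun s _ => ?_
    rw [e s, integral_add (i4 s) (i5 s), integral_sub (hs s).1 (hs s).2.1, integral_const_mul]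

/-- the bound of the virial, integrated -/
theorem mll_vir {n M : ℕ} {d C1 : ℝ} {X : Fin M → R3} {Z : Fin M → ℝ} {g : R3 → ℝ} {u : Wf n}
    (hu : Sm u) (aed : ∀ᵐ x : Cf n, Dist X x)
    (hV : ∀ x : Cf n, Dist X x → 0 ≤ Vc X Z x + C1 * (n + ∑ k, near2 X d (x k)) ∧
      -(C1 * (Vc X Z x + C1 * (n + ∑ k, near2 X d (x k)))) ≤ Vir X Z g x)
    (i1 : ∀ s, Integrable (fun x : Cf n => Vc X Z x * u s x ^ 2))
    (i2 : ∀ s, Integrable (fun x : Cf n => (∑ k, near2 X d (x k)) * u s x ^ 2))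
    (i3 : ∀ s, Integrable (fun x : Cf n => Vir X Z g x * u s x ^ 2)) :
    0 ≤ (∑ s, ∫ x, Vc X Z x * u s x ^ 2) +
      (C1 * n * Pool.Agent.Helper95.PW.sq u + C1 * one (near2 X d) u) ∧
    -(C1 * ((∑ s, ∫ x, Vc X Z x * u s x ^ 2) +
      (C1 * n * Pool.Agent.Helper95.PW.sq u + C1 * one (near2 X d) u))) ≤
      ∑ s, ∫ x, Vir X Z g x * u s x ^ 2 := by
  have i4 : ∀ s, Integrable (fun x : Cf n => u s x ^ 2) := fun s =>
    ((hu s).1.continuous.memLp_of_hasCompactSupport (hu s).2 (p := 2)).integrable_sq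
  have i5 : ∀ s, Integrable (fun x : Cf n => Vc X Z x * u s x ^ 2 +
      (C1 * n * u s x ^ 2 + C1 * ((∑ k, near2 X d (x k)) * u s x ^ 2))) :=
    fun s => (i1 s).add (((i4 s).const_mul _).add ((i2 s).const_mul _))
  have e5 : (∑ s, ∫ x, Vc X Z x * u s x ^ 2) +
      (C1 * n * Pool.Agent.Helper95.PW.sq u + C1 * one (near2 X d) u) =
      ∑ s, ∫ x, (Vc X Z x * u s x ^ 2 +
      (C1 * n * u s x ^ 2 + C1 * ((∑ k, near2 X d (x k)) * u s x ^ 2))) := by
    unfold one Pool.Agent.Helper95.PW.sq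
    rw [Finset.mul_sum, Finset.mul_sum, ← Finset.sum_add_distrib, ← Finset.sum_add_distrib]
    refine Finset.sum_congr rfl fun s _ => ?_
    have j1 : Integrable (fun x : Cf n => C1 * n * u s x ^ 2) := (i4 s).const_mul _
    have j2 : Integrable (fun x : Cf n => C1 * ((∑ k, near2 X d (x k)) * u s x ^ 2)) :=
      (i2 s).const_mul _
    have j3 : Integrable (fun x : Cf n =>
      C1 * n * u s x ^ 2 + C1 * ((∑ k, near2 X d (x k)) * u s x ^ 2)) := j1.add j2
    rw [integral_add (i1 s) j3, integral_add j1 j2, integral_const_mul, integral_const_mul]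
  refine ⟨?_, ?_⟩
  · rw [e5]
    refine Finset.sum_nonneg fun s _ => integral_nonneg_of_ae ?_
    filter_upwards [aed] with x hx
    have h := mul_nonneg (hV x hx).1 (sq_nonneg (u s x))
    refine h.trans (le_of_eq ?_)
    ring
  · rw [e5, Finset.mul_sum, ← Finset.sum_neg_distrib]
    refine Finset.sum_le_sum fun s _ => ?_
    rw [← integral_const_mul, ← integral_neg]
    refine integral_mono_ae ((i5 s).const_mul _).neg (i3 s) ?_
    filter_upwards [aed] with x hx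
    have h := mul_le_mul_of_nonneg_right (hV x hx).2 (sq_nonneg (u s x))
    refine le_trans (le_of_eq ?_) h
    ring

theorem MLL (h1 : ST_MGS) (h2 : ST_MGX) (h3 : ST_AED) (h4 : ST_KID) (h5 : ST_VID) (h6 : ST_VIR)
    (h7 : ST_PGB) (h8 : ST_HLOC) (h9 : ST_PAN) (h10 : ST_STB) (h11 : ST_INTM) : ST_MLL := by
  intro z d hz hd
  obtain ⟨A, hA1, hA⟩ := h1 d hd
  obtain ⟨A', hA'1, hA'⟩ := h2 d hd
  obtain ⟨C1, hC1, hV⟩ := h6 z d A hz hd hA1
  obtain ⟨C2, hC2, hH⟩ := h8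
  have hA0 : 0 ≤ A := by linarith
  have hA'0 : 0 ≤ A' := by linarith
  obtain ⟨K, hK⟩ : ∃ K, K = C1 * (2 * C1 + C2 * C1 + 2 * C2 * C1 / d ^ 2) / C1 := ⟨_, rfl⟩
  have hK' : K = 2 * C1 + C2 * C1 + 2 * C2 * C1 / d ^ 2 := by
    rw [hK]
    field_simp
  have hK0 : 0 ≤ K := by rw [hK']; positivity
  obtain ⟨C, hC⟩ : ∃ C, C = K + 2 * z * C1 + 2 * z * (A + A') + 1 := ⟨_, rfl⟩
  have hC0 : 0 < C := by rw [hC]; positivity
  refine ⟨C, hC0, fun n M X Z E B0 hM hn hX hNuc hZ1 hZ => ?_⟩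
  obtain ⟨P, hP⟩ : ∃ P, P = 7 * A ^ 2 * n * (|B0| + C2 * (|B0| + n * 2 / d ^ 2)) := ⟨_, rfl⟩
  have hP0 : 0 ≤ P := by rw [hP]; positivity
  refine ⟨2 * z * Real.sqrt P + 1, by positivity, fun u hu hsq hkB s hs hsd => ?_⟩
  have hg := hA M X s hX hs hsd
  have hbi := hA' M X s hX hs hsd
  obtain ⟨g, hgg⟩ : ∃ g, g = mG X d s := ⟨_, rfl⟩
  rw [← hgg] at hg hbi
  have hw : Sm (fun s => Pg g (u s)) := (h10 n g u hg.sm hu).2.1
  have hkin0 : 0 ≤ kin u := by
    unfold kin Pool.Agent.Helper95.PW.sq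
    exact Finset.sum_nonneg fun k _ => Finset.sum_nonneg fun i _ => Finset.sum_nonneg fun s _ =>
      integral_nonneg fun x => sq_nonneg _
  have hsq0 : 0 ≤ Pool.Agent.Helper95.PW.sq u := by
    unfold Pool.Agent.Helper95.PW.sq
    exact Finset.sum_nonneg fun s _ => integral_nonneg fun x => sq_nonneg _
  have hn0 : (0 : ℝ) ≤ n := Nat.cast_nonneg n
  have hHL := hH n M X d u hd hX hu
  have hB := mll_bi hs hg.sm hbi hu
  have hKi := h4 n g u hg.sm hu
  have hHs := MLOC_hess hg.sm hg.hs hu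
  have hR := mll_res h9 h11 X Z E hg.sm hu hw
  obtain ⟨hvd1, hvd2⟩ := h5 n M X Z g u hg.sm hg.cs hu
  obtain ⟨hvc1, hvc2⟩ := mll_vc h11 X Z hu
  obtain ⟨hT0, hTV⟩ := mll_vir (d := d) (C1 := C1) (g := g) hu (h3 n M X)
    (fun x hx => hV n M X Z g x hX hNuc hn hZ1 hZ hg.sm hg.outd hg.d1 hg.hs hx) hvc1 hHL.1 hvd1
  have hcs := INL_cauchy hw (fun s => Pool.Agent.Helper31.PMMOR.hmML h11 X Z E (hu s).1 (hu s).2)
  have hpg := h7 n M X d A g u hd hX hA0 hg.sm hg.d1 hg.lp hu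
  obtain ⟨R, hRd⟩ : ∃ R, R = ∑ s, ∫ x, Pg g (u s) x * (hmM X Z (u s) x - E * u s x) := ⟨_, rfl⟩
  have hRabs : R ≤ Real.sqrt P * Real.sqrt (resM X Z E u) := by
    rw [hRd]
    refine (le_abs_self _).trans (hcs.trans ?_)
    refine mul_le_mul_of_nonneg_right (Real.sqrt_le_sqrt ?_) (Real.sqrt_nonneg _)
    refine hpg.trans ?_
    rw [hP]
    have b1 : kin u ≤ |B0| := hkB.trans (le_abs_self _)
    have b2 : one (near2 X d) u ≤ C2 * (|B0| + n * 2 / d ^ 2) := by
      refine hHL.2.trans (mul_le_mul_of_nonneg_left ?_ hC2.le)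
      have : (n : ℝ) * Pool.Agent.Helper95.PW.sq u / d ^ 2 ≤ n * 2 / d ^ 2 := by gcongr
      linarith
    have b3 : 0 ≤ 7 * A ^ 2 * (n : ℝ) := by positivity
    exact mul_le_mul_of_nonneg_left (by linarith) b3
  have hmor : ∑ j, Z j * one (fun y => mor s (y - X j)) u ≤
      z * ∑ j, one (fun y => mor s (y - X j)) u := by
    rw [Finset.mul_sum]
    exact Finset.sum_le_sum fun j _ => mul_le_mul_of_nonneg_right (hZ j)
      (MLOC_one_nonneg (fun y => MLOC_mor_nonneg s _) u)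
  have hQV : QM X Z u - kin u + nucR X Z * Pool.Agent.Helper95.PW.sq u =
      ∑ s, ∫ x, Vc X Z x * u s x ^ 2 := by
    rw [hvc2]
    unfold QM
    ring
  rw [hQV]
  obtain ⟨V, hVd⟩ : ∃ V, V = ∑ s, ∫ x, Vc X Z x * u s x ^ 2 := ⟨_, rfl⟩
  obtain ⟨VR, hVR⟩ : ∃ VR, VR = ∑ s, ∫ x, Vir X Z g x * u s x ^ 2 := ⟨_, rfl⟩
  obtain ⟨N, hN⟩ : ∃ N, N = one (near2 X d) u := ⟨_, rfl⟩
  obtain ⟨L, hL⟩ : ∃ L, L = one (lap (lap g)) u := ⟨_, rfl⟩
  obtain ⟨q, hq⟩ : ∃ q, q = Pool.Agent.Helper95.PW.sq u := ⟨_, rfl⟩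
  rw [← hVd, ← hN, ← hq] at hT0
  rw [← hVd, ← hN, ← hq, ← hVR] at hTV
  rw [← hRd, hvd2, ← hVR, hKi, ← hL] at hR
  rw [← hL, ← hq] at hB
  rw [← hVd]
  have hHL2 := hHL.2
  rw [← hN, ← hq] at hHL2
  rw [← hq] at hsq hsq0
  obtain ⟨T, hT⟩ : ∃ T, T = V + (C1 * n * q + C1 * N) := ⟨_, rfl⟩
  rw [← hT] at hT0 hTV
  obtain ⟨W, hW⟩ : ∃ W, W = kin u + n := ⟨_, rfl⟩
  have hW0 : 0 ≤ W := by rw [hW]; positivity
  have hqn : (n : ℝ) * q ≤ 2 * n := by nlinarith
  have hTW : T ≤ V + K * W := by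
    have c1 : C1 * n * q ≤ C1 * (2 * n) := by
      rw [mul_assoc]
      exact mul_le_mul_of_nonneg_left hqn hC1.le
    have c2 : C1 * N ≤ C1 * (C2 * (kin u + 2 * n / d ^ 2)) := by
      refine mul_le_mul_of_nonneg_left (hHL2.trans (mul_le_mul_of_nonneg_left ?_ hC2.le)) hC1.le
      have : (n : ℝ) * q / d ^ 2 ≤ 2 * n / d ^ 2 :=
        div_le_div_of_nonneg_right hqn (by positivity)
      linarith
    have c3 : C1 * (C2 * (kin u + 2 * n / d ^ 2)) =
        C2 * C1 * kin u + 2 * C2 * C1 / d ^ 2 * n := by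
      field_simp
    have c4 : K * W = (2 * C1 * kin u + C2 * C1 * n + 2 * C2 * C1 / d ^ 2 * kin u) +
        (2 * C1 * n + C2 * C1 * kin u + 2 * C2 * C1 / d ^ 2 * n) := by
      rw [hK', hW]
      ring
    have c5 : 0 ≤ 2 * C1 * kin u + C2 * C1 * n + 2 * C2 * C1 / d ^ 2 * kin u := by positivity
    rw [hT]
    linarith
  have hsum : ∑ j, one (fun y => mor s (y - X j)) u ≤ 2 * R + 2 * C1 * T + 2 * A * kin u +
      2 * A' * n := by
    have c1 : A' * (n * q) ≤ A' * (2 * n) := mul_le_mul_of_nonneg_left hqn hA'0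
    linarith
  have hz2 := mul_le_mul_of_nonneg_left hsum hz
  have hR2 := mul_le_mul_of_nonneg_left hRabs (mul_nonneg zero_le_two hz)
  have hres0 := Real.sqrt_nonneg (resM X Z E u)
  refine (hmor.trans hz2).trans ?_
  rw [← hW]
  have d1 : 2 * z * C1 * T ≤ C * T := by
    refine mul_le_mul_of_nonneg_right ?_ hT0
    rw [hC]
    have : 0 ≤ 2 * z * (A + A') := by positivity
    linarith
  have d2 : C * T ≤ C * (V + K * W) := mul_le_mul_of_nonneg_left hTW hC0.le
  have d3 : 2 * z * (A + A') * W ≤ C * (C - K) * W := by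
    refine mul_le_mul_of_nonneg_right ?_ hW0
    have c1 : 2 * z * (A + A') ≤ C - K := by
      rw [hC]
      have : 0 ≤ 2 * z * C1 := by positivity
      linarith
    have c2 : 1 ≤ C := by
      rw [hC]
      have : 0 ≤ 2 * z * C1 := by positivity
      have : 0 ≤ 2 * z * (A + A') := by positivity
      linarith
    have c3 : 0 ≤ C - K := le_trans (by positivity) c1
    calc 2 * z * (A + A') ≤ C - K := c1
      _ = 1 * (C - K) := by ring
      _ ≤ C * (C - K) := mul_le_mul_of_nonneg_right c2 c3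
  have d4 : z * (2 * A * kin u + 2 * A' * n) ≤ 2 * z * (A + A') * W := by
    have c1 : 0 ≤ z * (2 * A * n + 2 * A' * kin u) := by positivity
    have c2 : 2 * z * (A + A') * W = z * (2 * A * kin u + 2 * A' * n) +
        z * (2 * A * n + 2 * A' * kin u) := by
      rw [hW]
      ring
    linarith
  have e5 : z * (2 * R + 2 * C1 * T + 2 * A * kin u + 2 * A' * n) =
      2 * z * R + 2 * z * C1 * T + z * (2 * A * kin u + 2 * A' * n) := by ring
  have e6 : (2 * z * Real.sqrt P + 1) * Real.sqrt (resM X Z E u) =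
      2 * z * (Real.sqrt P * Real.sqrt (resM X Z E u)) + Real.sqrt (resM X Z E u) := by ring
  have e7 : C * (V + C * W) = C * (V + K * W) + C * (C - K) * W := by ring
  rw [e5, e6, e7]
  linarith

end Pool.Agent.Helper14.LN
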